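import Pool.Agent.Y133.AJ.Final

/-!
# MP_a1cc03_ag: the growth of the kernel of the Abel–Jacobi map on the powers of a variety

Let `X` be a smooth projective variety over a field `k`, for example a number field, such that
homological and numerical equivalence agree on the powers of `X` (for example an abelian variety in
characteristic `0`). Let `f(n)` be the dimension of the kernel of the Abel–Jacobi map on the
homologically trivial elements of `CH(X^n)` with rational coefficients (possibly infinite), and
`a(n)` the dimension of the space of cycles on `X^n` modulo numerical equivalence. Then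
`f(n) / a(n)` converges to some `N ∈ {0, 1, 2, …, ∞}`, and `N = 0` if and only if the Abel–Jacobi
maps of all powers of `X` are injective modulo torsion. So if the Abel–Jacobi map is not injective
modulo torsion for one power of `X`, then the dimension of its kernel for `X^n` is asymptotically at
least the rank of the group of cycles on `X^n` modulo homological equivalence. If `N ≤ r` then
`z × z × ⋯ × z = 0` (`r + 2` factors) for all homologically trivial `z`.

The theorem holds for every Abel–Jacobi map in the sense of the structure `AbelJacobi`: only the
functoriality for correspondences is used, and that homologically trivial correspondences operate as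
zero on the target.
-/

open CategoryTheory AlgebraicGeometry Filter Topology

universe u v w x

namespace Pool.Agent.Results.MP_a1cc03_ag.AbelJacobiIndex

open Pool.Agent.H914 Pool.Agent.H914.VarClass Pool.Agent.H914.VarClass.Obj
  Pool.Agent.H914.WeilCohomology Pool.Agent.W492.BB Pool.Agent.TH133 Pool.Agent.Y133.Chow
  Pool.Agent.Y133.AJ Pool.Agent.Y129

variable {k : Type u} [Field k] {𝒱 : VarClass k} {ops : CycleOps 𝒱}

theorem result {W : WeilCohomology.{u, v} ops} {C : TheoryData.{u, w, 0} 𝒱 ℚ} [IsChowProj C]
    {c : ClassMap W C} (α : AbelJacobi.{u, v, w, x} c) (X : 𝒱.Obj) [Nontrivial (W.H X)]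
    (h : HomIsNum c X) :
    ∃ N : ℕ∞,
      RatioTendsTo (fun n => ajDim α (pw X n)) (fun n => numDim c (pw X n)) N ∧
      (N = 0 ↔ ∀ n, AJInjective α (pw X n)) ∧
      ∀ r : ℕ, N ≤ r → ∀ n x, HomTrivial c (pw X n) x → extPow C x (r + 1) = 0 :=
  aj_index α h

end Pool.Agent.Results.MP_a1cc03_ag.AbelJacobiIndex
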