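import Pool.Agent.Y712.AJ.Dim

/-!
# Griffiths's Abel–Jacobi maps over number fields: reduction to small dimension and to the powers of
the canonical classes

Let `C` be the Chow theory (with rational coefficients) of a class of smooth projective varieties over a
field `k ⊆ ℂ` (for example all of them, over a number field), `H` the Betti cohomology and `T`
Griffiths's Abel–Jacobi maps `CH^m_hom(X)_ℚ → J^{2m-1}(X)_ℚ`. Let `can X` be the canonical class of `X`
and `R` the class of the rational varieties.

1. For each `i ≥ 0` the Abel–Jacobi map is injective on the cycles of **dimension `i`** on all
   varieties if and only if it is injective on the cycles of dimension `i` on the varieties of dimension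
   **`2 i + 2`**. (For zero-cycles: surfaces; for one-cycles: fourfolds.)
2. `AJ^m` is injective for all `X` and `m` if and only if it is injective for `m ≥ 2` and `X` of
   dimension `2 m - 2`.
3. `AJ^m` is injective for all `X` and `m` if and only if for all **rational** `X` and all `n ≥ 1`: if
   `K_X ^ n` is homologically trivial and its image under the Abel–Jacobi map is torsion, then
   `K_X ^ n = 0` in `CH^n(X)_ℚ`. The same for the powers `v ^ n` of the divisors on rational varieties
   of dimension `2 n` and for the Chern classes of the vector bundles on rational varieties.
4. If `AJ^1` is injective for `X` (which is known for all `X`), then `AJ^m` is injective for this `X`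
   and all `m` if and only if this is so for the power `r + 1` of the canonical class of `P(E)`, for all
   vector bundles `E` on `X` of rank `r` with `c_1(E) = - K_X`.

For (1) the cycles are moved to complete intersections of dimension `2 i + 2` in products of `X` with
projective spaces (`HasSections`: resolution of singularities, Bertini, weak Lefschetz). For (3) and
(4), the kernels of the Abel–Jacobi maps form an adequate equivalence relation, to which the library
`Y101.Aq` applies.
-/

set_option autoImplicit false

open CategoryTheory AlgebraicGeometry

universe u v w w' w''

namespace Pool.Agent.Results.MP_a1cc03_ag.CanonicalPowersAndDimension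

open Pool.Agent.Y101.Aq Pool.Agent.H914 VarClass Obj Pool.Agent.W492.BB Pool.Agent.TH133
  Pool.Agent.Y712.AJ

/-- **The injectivity of the Abel–Jacobi maps** on cycles of dimension `i` is a statement about
varieties of dimension `2 i + 2`; in all codimensions it is equivalent to the injectivity in codimension
`m` on the varieties of dimension `2 m - 2`, and to the injectivity on the powers of the canonical
classes of the rational varieties. -/
theorem result {k : Type u} [Field k] {𝒱 : VarClass k} {C : TheoryData.{u, v, 0} 𝒱 ℚ}
    [IsChowProj C] {K : Type w} [Field K] {H : WeilTheoryData.{u, v, w} C K} [IsWeilProj H]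
    {T : AJData.{u, v, w'} C} (hT : IsAJ H T) (hS : HasSections H T)
    {D : BundleData.{u, v, w''} C} (hD : IsBundleTheory D) {can : ∀ X : 𝒱.Obj, C.A X}
    (hcan : IsCanonical D can) {R : 𝒱.Obj → Prop} (hR : IsRationalClass D R) :
    (∀ i, DimensionReduction H T i) ∧ BelowMiddleReduction H T ∧
      GlobalReduction D can R H T ∧ ∀ X, LocalReduction D can H T X :=
  ⟨dim_reduction hT hS, below_middle hT hS, aj_global hD hT hcan hR, aj_local hD hT hcan⟩

end Pool.Agent.Results.MP_a1cc03_ag.CanonicalPowersAndDimension
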